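import Mathlib

/-!
The counting argument.
-/

set_option autoImplicit false

namespace Pool.Agent.W606.SF

open Finset

theorem geo (K n : ℕ) :
    (∑ j ∈ range n, if 2 ^ j ≤ K then 2 ^ j else 0) ≤ 2 * K ∧
    (∑ j ∈ range n, if 2 ^ j ≤ K then 2 ^ j else 0) < 2 ^ n := by
  induction n with
  | zero => simp
  | succ n ih =>
    rw [sum_range_succ]
    by_cases h : 2 ^ n ≤ K
    · rw [if_pos h]
      have := ih.2
      constructor
      · omega
      · rw [pow_succ]; omega
    · rw [if_neg h]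
      refine ⟨by simpa using ih.1, ?_⟩
      have := ih.2
      rw [pow_succ]
      omega

theorem geo' (K S : ℕ) :
    (∑ s ∈ range (S + 1), if 2 ^ (S - s) ≤ K then 2 ^ (S - s) else 0) ≤ 2 * K := by
  have h := sum_range_reflect (fun j => if 2 ^ j ≤ K then 2 ^ j else 0) (S + 1)
  simp only [Nat.add_sub_cancel] at h
  rw [h]
  exact (geo K (S + 1)).1

open Classical in
theorem path_nb (k : ℕ) (j : Fin k) :
    (univ.filter (fun i : Fin k => j = i ∨ (SimpleGraph.pathGraph k).Adj j i)).card ≤ 3 := by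
  classical
  have h : (univ.filter (fun i : Fin k => j = i ∨ (SimpleGraph.pathGraph k).Adj j i)).image
      (fun i : Fin k => i.val) ⊆ {j.val, j.val + 1, j.val - 1} := by
    intro x hx
    rw [mem_image] at hx
    obtain ⟨i, hi, rfl⟩ := hx
    rw [mem_filter, SimpleGraph.pathGraph_adj] at hi
    simp only [mem_insert, mem_singleton]
    rcases hi.2 with h | h | h
    · left; rw [h]
    · omega
    · omega
  have h2 : ((univ.filter (fun i : Fin k => j = i ∨ (SimpleGraph.pathGraph k).Adj j i)).image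
      (fun i : Fin k => i.val)).card = _ := card_image_of_injective _ Fin.val_injective
  rw [← h2]
  exact (card_le_card h).trans card_le_three

theorem count {V : Type} (G : SimpleGraph V) (S c k m K : ℕ) (a : ℕ → V) (cc : ℕ → ℕ → V)
    (ll : ℕ → ℕ → V)
    (hac : ∀ s, s ≤ S → ∀ q, q < 2 ^ s → G.Adj (a s) (cc s q))
    (hcl : ∀ s, s ≤ S → ∀ q, q < 2 ^ S → G.Adj (cc s (q / 2 ^ (S - s))) (ll s q))
    (hci : ∀ s, s ≤ S → ∀ q, q < 2 ^ s → ∀ q', q' < 2 ^ s → cc s q = cc s q' → q = q')
    (hli : ∀ s, s ≤ S → ∀ q, q < 2 ^ S → ∀ q', q' < 2 ^ S → ll s q = ll s q' → q = q')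
    (H : SimpleGraph (Fin m)) [DecidableRel H.Adj]
    (hH : ∑ v, (univ.filter (fun u => H.Adj v u)).card ≤ K * m)
    (φ : V → Fin m × Fin k × Fin c) (hφ : Function.Injective φ)
    (hadj : ∀ u v, G.Adj u v → ((φ u).1 = (φ v).1 ∨ H.Adj (φ u).1 (φ v).1) ∧
      ((φ u).2.1 = (φ v).2.1 ∨ (SimpleGraph.pathGraph k).Adj (φ u).2.1 (φ v).2.1)) :
    (S + 1) * 2 ^ S ≤ 18 * c ^ 2 * ((K + 1) * m) := by
  classical
  set D : Fin m → ℕ := fun h => (univ.filter (fun u => H.Adj h u)).card + 1 with hD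
  set N : Fin k → Finset (Fin k) := fun j =>
    univ.filter (fun i : Fin k => j = i ∨ (SimpleGraph.pathGraph k).Adj j i) with hN
  have hNc : ∀ j, (N j).card ≤ 3 := fun j => by
    have := path_nb k j
    convert this
  -- (A)
  have hA : ∀ s, s ≤ S → ∀ q, q < 2 ^ s → 2 ^ (S - s) ≤ 3 * c * D (φ (cc s q)).1 := by
    intro s hs q hq
    have hpos : 0 < 2 ^ (S - s) := by positivity
    have hpow : 2 ^ s * 2 ^ (S - s) = 2 ^ S := by
      rw [← pow_add]; congr 1; omega
    have hlt : ∀ i, i < 2 ^ (S - s) → q * 2 ^ (S - s) + i < 2 ^ S := by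
      intro i hi
      calc q * 2 ^ (S - s) + i < q * 2 ^ (S - s) + 2 ^ (S - s) := by omega
        _ = (q + 1) * 2 ^ (S - s) := by ring
        _ ≤ 2 ^ s * 2 ^ (S - s) := Nat.mul_le_mul_right _ hq
        _ = 2 ^ S := hpow
    have hdiv : ∀ i, i < 2 ^ (S - s) → (q * 2 ^ (S - s) + i) / 2 ^ (S - s) = q := by
      intro i hi
      rw [Nat.div_eq_iff hpos]
      constructor
      · omega
      · omega
    have hinj : Set.InjOn (fun i => φ (ll s (q * 2 ^ (S - s) + i)))
        (range (2 ^ (S - s)) : Finset ℕ) := by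
      intro i hi i' hi' h
      rw [mem_coe, mem_range] at hi hi'
      have := hli s hs _ (hlt i hi) _ (hlt i' hi') (hφ h)
      omega
    have hsub : (range (2 ^ (S - s))).image (fun i => φ (ll s (q * 2 ^ (S - s) + i))) ⊆
        (insert (φ (cc s q)).1 (univ.filter (fun u => H.Adj (φ (cc s q)).1 u))) ×ˢ
          (N (φ (cc s q)).2.1 ×ˢ (univ : Finset (Fin c))) := by
      intro x hx
      rw [mem_image] at hx
      obtain ⟨i, hi, rfl⟩ := hx
      rw [mem_range] at hi
      have h1 := hcl s hs _ (hlt i hi)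
      rw [hdiv i hi] at h1
      obtain ⟨h2, h3⟩ := hadj _ _ h1
      rw [mem_product, mem_product, mem_insert, mem_filter, hN, mem_filter]
      refine ⟨?_, ⟨mem_univ _, h3⟩, mem_univ _⟩
      rcases h2 with h2 | h2
      · exact Or.inl h2.symm
      · exact Or.inr ⟨mem_univ _, h2⟩
    have h4 := card_le_card hsub
    rw [card_image_of_injOn hinj, card_range, card_product, card_product, card_univ,
      Fintype.card_fin] at h4
    calc 2 ^ (S - s) ≤ _ := h4
      _ ≤ D (φ (cc s q)).1 * (3 * c) := by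
        apply Nat.mul_le_mul (card_insert_le _ _)
        exact Nat.mul_le_mul_right _ (hNc _)
      _ = 3 * c * D (φ (cc s q)).1 := by ring
  -- (B)
  have hB : ∀ s, s ≤ S → ∀ h : Fin m,
      ((range (2 ^ s)).filter (fun q => (φ (cc s q)).1 = h)).card ≤ 3 * c := by
    intro s hs h
    have hinj : Set.InjOn (fun q => (φ (cc s q)).2)
        ((range (2 ^ s)).filter (fun q => (φ (cc s q)).1 = h) : Finset ℕ) := by
      intro q hq q' hq' e
      rw [mem_coe, mem_filter, mem_range] at hq hq'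
      apply hci s hs q hq.1 q' hq'.1
      apply hφ
      exact Prod.ext (hq.2.trans hq'.2.symm) e
    have hsub : ((range (2 ^ s)).filter (fun q => (φ (cc s q)).1 = h)).image
        (fun q => (φ (cc s q)).2) ⊆ N (φ (a s)).2.1 ×ˢ (univ : Finset (Fin c)) := by
      intro x hx
      rw [mem_image] at hx
      obtain ⟨q, hq, rfl⟩ := hx
      rw [mem_filter, mem_range] at hq
      rw [mem_product, hN, mem_filter]
      exact ⟨⟨mem_univ _, (hadj _ _ (hac s hs q hq.1)).2⟩, mem_univ _⟩
    have h4 := card_le_card hsub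
    rw [card_image_of_injOn hinj, card_product, card_univ, Fintype.card_fin] at h4
    exact h4.trans (Nat.mul_le_mul_right _ (hNc _))
  -- (C)
  have hC : ∀ s ∈ range (S + 1), 2 ^ S ≤
      ∑ h : Fin m, 3 * c * (if 2 ^ (S - s) ≤ 3 * c * D h then 2 ^ (S - s) else 0) := by
    intro s hs
    rw [mem_range] at hs
    have hs' : s ≤ S := by omega
    have hpow : 2 ^ s * 2 ^ (S - s) = 2 ^ S := by
      rw [← pow_add]; congr 1; omega
    have h1 : (range (2 ^ s)).card =
        ∑ h : Fin m, ((range (2 ^ s)).filter (fun q => (φ (cc s q)).1 = h)).card :=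
      card_eq_sum_card_fiberwise (fun x _ => mem_coe.2 (mem_univ _))
    rw [card_range] at h1
    rw [← hpow, h1, sum_mul]
    apply sum_le_sum
    intro h _
    by_cases hh : 2 ^ (S - s) ≤ 3 * c * D h
    · rw [if_pos hh]
      exact Nat.mul_le_mul_right _ (hB s hs' h)
    · rw [if_neg hh]
      have : (range (2 ^ s)).filter (fun q => (φ (cc s q)).1 = h) = ∅ := by
        rw [filter_eq_empty_iff]
        intro q hq e
        rw [mem_range] at hq
        apply hh
        rw [← e]
        exact hA s hs' q hq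
      rw [this]
      simp
  have hsum : (S + 1) * 2 ^ S ≤ ∑ s ∈ range (S + 1), ∑ h : Fin m,
      3 * c * (if 2 ^ (S - s) ≤ 3 * c * D h then 2 ^ (S - s) else 0) := by
    calc (S + 1) * 2 ^ S = ∑ _s ∈ range (S + 1), 2 ^ S := by simp
      _ ≤ _ := sum_le_sum hC
  rw [sum_comm] at hsum
  have hDs : ∑ h : Fin m, D h ≤ (K + 1) * m := by
    rw [hD]
    simp only [sum_add_distrib]
    simp only [sum_const, card_univ, Fintype.card_fin, smul_eq_mul, mul_one]
    rw [add_mul, one_mul]
    exact Nat.add_le_add_right hH _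
  calc (S + 1) * 2 ^ S ≤ _ := hsum
    _ ≤ ∑ h : Fin m, 18 * c ^ 2 * D h := by
      apply sum_le_sum
      intro h _
      rw [← mul_sum]
      calc _ ≤ 3 * c * (2 * (3 * c * D h)) := Nat.mul_le_mul_left _ (geo' _ S)
        _ = 18 * c ^ 2 * D h := by ring
    _ = 18 * c ^ 2 * ∑ h : Fin m, D h := by rw [mul_sum]
    _ ≤ 18 * c ^ 2 * ((K + 1) * m) := Nat.mul_le_mul_left _ hDs

end Pool.Agent.W606.SF
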