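import Mathlib

/-!
A drawing of a layered forest in the plane in which every edge is drawn by two arcs.
-/

set_option autoImplicit false

namespace Pool.Agent.W606.SF

/-- the arc with ends `(a, c)` and `(b, d)`, bent by `e` -/
noncomputable def arc (a b c d e : ℝ) (t : ℝ) : ℝ × ℝ :=
  (a + t * (b - a) + e * (t * (1 - t)), c + t * (d - c))

theorem draw {V : Type} (G : SimpleGraph V) (lev : V → ℤ) (X : V → ℤ)
    (h1 : ∀ u v, G.Adj u v → lev u = lev v + 1 ∨ lev v = lev u + 1)
    (h2 : ∀ u v, lev u = lev v → X u = X v → u = v)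
    (h4 : ∀ u v u', G.Adj u v → G.Adj u' v → lev u = lev v + 1 → lev u' = lev v + 1 → u = u')
    (h5 : ∀ u v u' v', G.Adj u v → G.Adj u' v' → lev u = lev v + 1 → lev u' = lev v' + 1 →
      lev v = lev v' → X v < X v' → X u ≤ X u') :
    ∃ p : V → ℝ × ℝ, Function.Injective p ∧
      ∃ γ : V → V → unitInterval → ℝ × ℝ,
        (∀ u v, G.Adj u v → Continuous (γ u v) ∧ Function.Injective (γ u v) ∧
            γ u v 0 = p u ∧ γ u v 1 = p v) ∧
        (∀ u v w x, G.Adj u v → γ u v x = p w → (w = u ∧ x = 0) ∨ (w = v ∧ x = 1)) ∧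
        (∀ u v u' v' x y, G.Adj u v → G.Adj u' v' → (u, v) ≠ (u', v') →
            γ u v x = γ u' v' y → ∃ w, γ u v x = p w) := by
  classical
  let p : V → ℝ × ℝ := fun v => ((X v : ℝ), (lev v : ℝ))
  have hp : Function.Injective p := by
    intro u v h
    have e1 : (X u : ℝ) = X v := congrArg Prod.fst h
    have e2 : (lev u : ℝ) = lev v := congrArg Prod.snd h
    exact h2 u v (by exact_mod_cast e2) (by exact_mod_cast e1)
  -- the sign of the bend
  let σ : V → V → ℝ := fun u v => if lev v < lev u then 1 / 2 else -(1 / 2)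
  let γ : V → V → unitInterval → ℝ × ℝ := fun u v x =>
    arc (X u) (X v) (lev u) (lev v) (σ u v) x.1
  have g0 : ∀ u v, γ u v 0 = p u := by
    intro u v
    show arc _ _ _ _ _ ((0 : unitInterval) : ℝ) = _
    unfold arc
    simp [p]
  have g1 : ∀ u v, γ u v 1 = p v := by
    intro u v
    show arc _ _ _ _ _ ((1 : unitInterval) : ℝ) = _
    unfold arc
    simp [p]
  -- every interior point of an arc in terms of parent and child
  have rep : ∀ u v (x : unitInterval), G.Adj u v → x ≠ 0 → x ≠ 1 →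
      ∃ (P C : V) (t e : ℝ), G.Adj P C ∧ lev P = lev C + 1 ∧ 0 < t ∧ t < 1 ∧
        ((P = u ∧ C = v ∧ e = 1 / 2) ∨ (P = v ∧ C = u ∧ e = -(1 / 2))) ∧
        γ u v x = ((1 - t) * X P + t * X C + e * (t * (1 - t)), (lev C : ℝ) + (1 - t)) := by
    intro u v x huv hx0 hx1
    have hx0' : (0 : ℝ) < x.1 := lt_of_le_of_ne x.2.1 (fun h => hx0 (Subtype.ext h.symm))
    have hx1' : (x.1 : ℝ) < 1 := lt_of_le_of_ne x.2.2 (fun h => hx1 (Subtype.ext h))
    rcases h1 u v huv with h | h
    · refine ⟨u, v, x.1, 1 / 2, huv, h, hx0', hx1', Or.inl ⟨rfl, rfl, rfl⟩, ?_⟩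
      have hs : σ u v = 1 / 2 := by
        simp only [σ]
        rw [if_pos (by omega)]
      have hl : (lev u : ℝ) = lev v + 1 := by exact_mod_cast h
      show arc (X u) (X v) (lev u) (lev v) (σ u v) x.1 = _
      unfold arc
      rw [hs, hl]
      refine Prod.ext ?_ ?_
      · show _ = _
        ring
      · show _ = _
        ring
    · refine ⟨v, u, 1 - x.1, -(1 / 2), huv.symm, h, by linarith, by linarith,
        Or.inr ⟨rfl, rfl, rfl⟩, ?_⟩
      have hs : σ u v = -(1 / 2) := by
        simp only [σ]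
        rw [if_neg (by omega)]
      have hl : (lev v : ℝ) = lev u + 1 := by exact_mod_cast h
      show arc (X u) (X v) (lev u) (lev v) (σ u v) x.1 = _
      unfold arc
      rw [hs, hl]
      refine Prod.ext ?_ ?_
      · show _ = _
        ring
      · show _ = _
        ring
  refine ⟨p, hp, γ, ?_, ?_, ?_⟩
  · intro u v huv
    refine ⟨?_, ?_, g0 u v, g1 u v⟩
    · show Continuous (fun x : unitInterval => arc _ _ _ _ _ x.1)
      unfold arc
      fun_prop
    · intro x y hxy
      have e2 : (lev u : ℝ) + x.1 * (lev v - lev u) = lev u + y.1 * (lev v - lev u) :=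
        congrArg Prod.snd hxy
      have hne : (lev v : ℝ) - lev u ≠ 0 := by
        rcases h1 u v huv with h | h
        · have hl : (lev u : ℝ) = lev v + 1 := by exact_mod_cast h
          rw [hl]; norm_num
        · have hl : (lev v : ℝ) = lev u + 1 := by exact_mod_cast h
          rw [hl]; norm_num
      have e3 : (x.1 : ℝ) * (lev v - lev u) = y.1 * (lev v - lev u) := by linarith
      exact Subtype.ext (mul_right_cancel₀ hne e3)
  · intro u v w x huv hx
    by_cases hx0 : x = 0
    · left
      subst hx0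
      rw [g0] at hx
      exact ⟨(hp hx).symm, rfl⟩
    by_cases hx1 : x = 1
    · right
      subst hx1
      rw [g1] at hx
      exact ⟨(hp hx).symm, rfl⟩
    exfalso
    obtain ⟨P, C, t, e, _, _, ht0, ht1, _, hg⟩ := rep u v x huv hx0 hx1
    rw [hg] at hx
    have e2 : (lev C : ℝ) + (1 - t) = lev w := congrArg Prod.snd hx
    have e3 : ((lev w - lev C : ℤ) : ℝ) = 1 - t := by push_cast; linarith
    have e4 : (0 : ℝ) < ((lev w - lev C : ℤ) : ℝ) := by rw [e3]; linarith
    have e5 : ((lev w - lev C : ℤ) : ℝ) < 1 := by rw [e3]; linarith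
    have e6 : (0 : ℤ) < lev w - lev C := by exact_mod_cast e4
    have e7 : (lev w - lev C : ℤ) < 1 := by exact_mod_cast e5
    omega
  · intro u v u' v' x y huv huv' hne hxy
    by_cases hx0 : x = 0
    · exact ⟨u, by rw [hx0, g0]⟩
    by_cases hx1 : x = 1
    · exact ⟨v, by rw [hx1, g1]⟩
    by_cases hy0 : y = 0
    · exact ⟨u', by rw [hxy, hy0, g0]⟩
    by_cases hy1 : y = 1
    · exact ⟨v', by rw [hxy, hy1, g1]⟩
    exfalso
    obtain ⟨P, C, t, e, hPC, hl, ht0, ht1, hor, hg⟩ := rep u v x huv hx0 hx1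
    obtain ⟨P', C', t', e', hPC', hl', ht0', ht1', hor', hg'⟩ := rep u' v' y huv' hy0 hy1
    rw [hg, hg'] at hxy
    have e1 : (1 - t) * X P + t * X C + e * (t * (1 - t)) =
      (1 - t') * X P' + t' * X C' + e' * (t' * (1 - t')) := congrArg Prod.fst hxy
    have e2 : (lev C : ℝ) + (1 - t) = lev C' + (1 - t') := congrArg Prod.snd hxy
    have hCC : lev C = lev C' := by
      have a1 : ((lev C - lev C' : ℤ) : ℝ) < 1 := by push_cast; linarith
      have a2 : (-1 : ℝ) < ((lev C - lev C' : ℤ) : ℝ) := by push_cast; linarith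
      have a3 : (lev C - lev C' : ℤ) < 1 := by exact_mod_cast a1
      have a4 : (-1 : ℤ) < lev C - lev C' := by exact_mod_cast a2
      omega
    have htt : t = t' := by
      rw [hCC] at e2
      linarith
    subst htt
    have he : -(1 / 2) ≤ e ∧ e ≤ 1 / 2 := by
      rcases hor with h | h
      · rw [h.2.2]; norm_num
      · rw [h.2.2]; norm_num
    have he' : -(1 / 2) ≤ e' ∧ e' ≤ 1 / 2 := by
      rcases hor' with h | h
      · rw [h.2.2]; norm_num
      · rw [h.2.2]; norm_num
    have hpos : 0 < t * (1 - t) := mul_pos ht0 (by linarith)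
    -- the strict comparison
    have cmp : ∀ a a' b b' f f' : ℝ, a ≤ a' → b + 1 ≤ b' → f ≤ 1 / 2 → -(1 / 2) ≤ f' →
        (1 - t) * a + t * b + f * (t * (1 - t)) < (1 - t) * a' + t * b' + f' * (t * (1 - t)) := by
      intro a a' b b' f f' ha hb hf hf'
      have c1 : (1 - t) * a ≤ (1 - t) * a' := mul_le_mul_of_nonneg_left ha (by linarith)
      have c2 : t * (b + 1) ≤ t * b' := mul_le_mul_of_nonneg_left hb ht0.le
      have c3 : f * (t * (1 - t)) ≤ 1 / 2 * (t * (1 - t)) :=
        mul_le_mul_of_nonneg_right hf hpos.le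
      have c4 : -(1 / 2) * (t * (1 - t)) ≤ f' * (t * (1 - t)) :=
        mul_le_mul_of_nonneg_right hf' hpos.le
      nlinarith [mul_pos ht0 ht0]
    rcases lt_trichotomy (X C) (X C') with hlt | heq | hlt
    · have hP := h5 P C P' C' hPC hPC' hl hl' hCC hlt
      have := cmp (X P) (X P') (X C) (X C') e e' (by exact_mod_cast hP)
        (by exact_mod_cast hlt) he.2 he'.1
      exact absurd e1 this.ne
    · have hC : C = C' := h2 C C' hCC heq
      subst hC
      have hP : P = P' := h4 P C P' hPC hPC' hl hl'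
      subst hP
      have hee : e = e' := by
        have : e * (t * (1 - t)) = e' * (t * (1 - t)) := by linarith
        exact mul_right_cancel₀ hpos.ne' this
      apply hne
      rcases hor with ⟨a1, a2, a3⟩ | ⟨a1, a2, a3⟩ <;>
        rcases hor' with ⟨b1, b2, b3⟩ | ⟨b1, b2, b3⟩
      · rw [← a1, ← a2, ← b1, ← b2]
      · exfalso; rw [a3, b3] at hee; norm_num at hee
      · exfalso; rw [a3, b3] at hee; norm_num at hee
      · rw [← a1, ← a2, ← b1, ← b2]
    · have hP := h5 P' C' P C hPC' hPC hl' hl hCC.symm hlt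
      have := cmp (X P') (X P) (X C') (X C) e' e (by exact_mod_cast hP)
        (by exact_mod_cast hlt) he'.2 he.1
      exact absurd e1 this.ne'

end Pool.Agent.W606.SF
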