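import Mathlib
import Pool.Agent.W929.TW.Tree

/-!
A graph with a tree decomposition with bags of at most four vertices has few edges.
-/

set_option autoImplicit false

namespace Pool.Agent.W606.SF

open Finset Pool.Agent.W929.TW

/-- a graph on `m` vertices with a tree decomposition with bags of size at most `w + 1` has at
most `w m` edges -/
theorem deg_sum {m : ℕ} (H : SimpleGraph (Fin m)) [DecidableRel H.Adj] (w r : ℕ)
    (T : SimpleGraph (Fin r)) (hT : T.IsTree) (B : Fin r → Finset (Fin m))
    (hv : ∀ v, ∃ i, v ∈ B i) (he : ∀ u v, H.Adj u v → ∃ i, u ∈ B i ∧ v ∈ B i)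
    (hc : ∀ v, (T.induce {i | v ∈ B i}).Connected) (hB : ∀ i, (B i).card ≤ w + 1) :
    ∑ v, (univ.filter (fun u => H.Adj v u)).card ≤ 2 * w * m := by
  classical
  rcases Nat.eq_zero_or_pos m with hm | hm
  · subst hm
    simp
  have v0 : Fin r := (hv ⟨0, hm⟩).choose
  let R : RD (Fin r) m := RD.ofConn (ofTree hT v0) B (by
    intro j x y c h1 h2 h3 h4
    exact conn_ofTree hT v0 (S := {i | j ∈ B i}) (hc j).preconnected h1 h2 h3 h4)
  have hbag : R.bag = B := rfl
  have htop : ∀ v : Fin m, ∃ t, v ∈ R.bag t ∧ (t = R.root ∨ v ∉ R.bag (R.par t)) := by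
    intro v
    obtain ⟨i, hi⟩ := hv v
    obtain ⟨t, _, h2, h3⟩ := R.exists_top (j := v) (x := i) hi
    exact ⟨t, h2, h3⟩
  choose t ht1 ht2 using htop
  have key : ∀ u v, H.Adj u v → u ∈ B (t v) ∨ v ∈ B (t u) := by
    have comp : ∀ a b x : Fin r, R.Anc a x → R.Anc b x → R.Anc a b ∨ R.Anc b a := by
      rintro a b x ⟨i, rfl⟩ ⟨j, rfl⟩
      rcases le_total i j with h | h
      · right
        refine ⟨j - i, ?_⟩
        rw [← Function.iterate_add_apply]
        congr 2
        omega
      · left
        refine ⟨i - j, ?_⟩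
        rw [← Function.iterate_add_apply]
        congr 2
        omega
    have main : ∀ u v x, u ∈ B x → R.Anc (t v) x → R.Anc (t u) (t v) → u ∈ B (t v) := by
      intro u v x h1 h2 h3
      by_cases h : R.Anc (t v) (t u)
      · have := R.anc_antisymm h3 h
        rw [← this]
        exact ht1 u
      · exact (R.conn (j := u) (x := x) (y := t u) (c := t v) h1 (ht1 u) h2 h).1
    intro u v huv
    obtain ⟨x, hxu, hxv⟩ := he u v huv
    obtain ⟨a, ha1, ha2, ha3⟩ := R.exists_top (j := u) (x := x) hxu
    obtain ⟨b, hb1, hb2, hb3⟩ := R.exists_top (j := v) (x := x) hxv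
    have hau : a = t u := R.top u a (t u) ha2 ha3 (ht1 u) (ht2 u)
    have hbv : b = t v := R.top v b (t v) hb2 hb3 (ht1 v) (ht2 v)
    subst hau
    subst hbv
    rcases comp (t u) (t v) x ha1 hb1 with h | h
    · exact Or.inl (main u v x hxu hb1 h)
    · exact Or.inr (main v u x hxv ha1 h)
  have hlow : ∀ v, ((B (t v)).erase v).card ≤ w := by
    intro v
    have h1 : v ∈ B (t v) := ht1 v
    rw [card_erase_of_mem h1]
    have := hB (t v)
    omega
  -- count the pairs
  have h1 : ∑ v, (univ.filter (fun u => H.Adj v u)).card ≤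
      ∑ v, ((univ.filter (fun u => u ∈ (B (t v)).erase v)).card +
        (univ.filter (fun u => v ∈ (B (t u)).erase u)).card) := by
    apply sum_le_sum
    intro v _
    refine le_trans (card_le_card ?_) (card_union_le _ _)
    intro u hu
    rw [mem_filter] at hu
    rw [mem_union, mem_filter, mem_filter, mem_erase, mem_erase]
    rcases key v u hu.2 with h | h
    · exact Or.inr ⟨mem_univ _, hu.2.ne, h⟩
    · exact Or.inl ⟨mem_univ _, hu.2.ne', h⟩
  have h2 : ∑ v, (univ.filter (fun u => v ∈ (B (t u)).erase u)).card =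
      ∑ v, (univ.filter (fun u => u ∈ (B (t v)).erase v)).card := by
    simp only [card_filter]
    rw [sum_comm]
  have h3 : ∑ v, (univ.filter (fun u => u ∈ (B (t v)).erase v)).card ≤ m * w := by
    calc ∑ v, (univ.filter (fun u => u ∈ (B (t v)).erase v)).card ≤ ∑ _v : Fin m, w := by
          apply sum_le_sum
          intro v _
          have : (univ.filter (fun u => u ∈ (B (t v)).erase v)) = (B (t v)).erase v := by
            ext u; simp
          rw [this]
          exact hlow v
      _ = m * w := by simp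
  rw [sum_add_distrib, h2] at h1
  calc _ ≤ _ := h1
    _ ≤ m * w + m * w := Nat.add_le_add h3 h3
    _ = 2 * w * m := by ring

end Pool.Agent.W606.SF
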