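import Mathlib
import Pool.Agent.H46R3.TreeHelly
import Pool.Agent.W606.SF.Draw
import Pool.Agent.W606.SF.Count
import Pool.Agent.W606.SF.Edge

/-!
The forest: components are trees of depth two, the component `s` has an apex, `2 ^ s` centres and
`2 ^ (S - s)` leaves at every centre.
-/

set_option autoImplicit false

namespace Pool.Agent.W606.SF

open Finset

/-- exponent of the number of leaves below a vertex of level `l` in component `s` -/
def wd (S : ℕ) (x : ℕ × ℕ × ℕ) : ℕ := if x.1 = 0 then 0 else if x.1 = 1 then S - x.2.1 else S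

theorem wd_le (S : ℕ) (x : ℕ × ℕ × ℕ) : wd S x ≤ S := by
  unfold wd
  split_ifs <;> omega

/-- vertices: (level, component, index) -/
def F (S : ℕ) : Finset (ℕ × ℕ × ℕ) :=
  (range 3 ×ˢ (range (S + 1) ×ˢ range (2 ^ S))).filter (fun x => x.2.2 * 2 ^ wd S x < 2 ^ S)

theorem mem_F {S : ℕ} {x : ℕ × ℕ × ℕ} :
    x ∈ F S ↔ x.1 < 3 ∧ x.2.1 ≤ S ∧ x.2.2 * 2 ^ wd S x < 2 ^ S := by
  unfold F
  rw [mem_filter, mem_product, mem_product, mem_range, mem_range, mem_range]
  constructor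
  · rintro ⟨⟨h1, h2, h3⟩, h4⟩
    exact ⟨h1, by omega, h4⟩
  · rintro ⟨h1, h2, h3⟩
    refine ⟨⟨h1, by omega, ?_⟩, h3⟩
    exact lt_of_le_of_lt (Nat.le_mul_of_pos_right _ (by positivity)) h3

theorem card_F (S : ℕ) : (F S).card ≤ (S + 1) * (3 * 2 ^ S) := by
  unfold F
  refine (card_filter_le _ _).trans ?_
  rw [card_product, card_product, card_range, card_range, card_range]
  apply le_of_eq
  ring

/-- the position of a vertex -/
def pos (S : ℕ) (x : ℕ × ℕ × ℕ) : ℕ := x.2.1 * 2 ^ S + x.2.2 * 2 ^ wd S x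

theorem succ_mul_le {S : ℕ} {x : ℕ × ℕ × ℕ} (h : x ∈ F S) :
    (x.2.2 + 1) * 2 ^ wd S x ≤ 2 ^ S := by
  have h1 := (mem_F.1 h).2.2
  have h2 : 2 ^ S = 2 ^ (S - wd S x) * 2 ^ wd S x := by
    rw [← pow_add]
    congr 1
    have := wd_le S x
    omega
  rw [h2] at h1 ⊢
  exact Nat.mul_le_mul_right _ (Nat.lt_of_mul_lt_mul_right h1)

theorem pos_lt {S : ℕ} {x : ℕ × ℕ × ℕ} (h : x ∈ F S) :
    pos S x + 2 ^ wd S x ≤ (x.2.1 + 1) * 2 ^ S := by
  have := succ_mul_le h
  unfold pos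
  nlinarith

theorem le_pos (S : ℕ) (x : ℕ × ℕ × ℕ) : x.2.1 * 2 ^ S ≤ pos S x := Nat.le_add_right _ _

theorem pos_comp {S : ℕ} {x y : ℕ × ℕ × ℕ} (hx : x ∈ F S) (h : x.2.1 < y.2.1) :
    pos S x + 2 ^ wd S x ≤ pos S y :=
  (pos_lt hx).trans ((Nat.mul_le_mul_right _ h).trans (le_pos S y))

theorem pos_comp' {S : ℕ} {x y : ℕ × ℕ × ℕ} (hx : x ∈ F S) (h : x.2.1 < y.2.1) :
    pos S x < pos S y := by
  have h1 := pos_comp hx h
  have h2 : 0 < 2 ^ wd S x := by positivity
  exact lt_of_lt_of_le (Nat.lt_add_of_pos_right h2) h1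

/-- two vertices of the same level whose intervals meet are equal -/
theorem eq_of_meet {S : ℕ} {x y : ℕ × ℕ × ℕ} (hx : x ∈ F S) (hy : y ∈ F S) (hl : x.1 = y.1)
    (i : ℕ) (h1 : pos S x ≤ i) (h2 : i < pos S x + 2 ^ wd S x) (h3 : pos S y ≤ i)
    (h4 : i < pos S y + 2 ^ wd S y) : x = y := by
  have hs : x.2.1 = y.2.1 := by
    rcases lt_trichotomy x.2.1 y.2.1 with h | h | h
    · have := pos_comp hx h
      omega
    · exact h
    · have := pos_comp hy h
      omega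
  have hw : wd S x = wd S y := by
    unfold wd
    rw [hl, hs]
  have hq : x.2.2 = y.2.2 := by
    unfold pos at h1 h2 h3 h4
    rw [hs, hw] at h1 h2
    have e1 : x.2.2 * 2 ^ wd S y < (y.2.2 + 1) * 2 ^ wd S y := by nlinarith
    have e2 : y.2.2 * 2 ^ wd S y < (x.2.2 + 1) * 2 ^ wd S y := by nlinarith
    have e3 := Nat.lt_of_mul_lt_mul_right e1
    have e4 := Nat.lt_of_mul_lt_mul_right e2
    omega
  exact Prod.ext hl (Prod.ext hs hq)

/-- `p` is the parent of `x` -/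
def PC (S : ℕ) (p x : ℕ × ℕ × ℕ) : Prop :=
  p.1 = x.1 + 1 ∧ p.2.1 = x.2.1 ∧ p.2.2 = x.2.2 * 2 ^ wd S x / 2 ^ wd S p

theorem PC.le {S : ℕ} {p x : ℕ × ℕ × ℕ} (h : PC S p x) : pos S p ≤ pos S x := by
  unfold pos
  rw [h.2.1, h.2.2]
  exact Nat.add_le_add_left (Nat.div_mul_le_self _ _) _

theorem PC.lt {S : ℕ} {p x : ℕ × ℕ × ℕ} (h : PC S p x) : pos S x < pos S p + 2 ^ wd S p := by
  have h1 : x.2.2 * 2 ^ wd S x < 2 ^ wd S p * (x.2.2 * 2 ^ wd S x / 2 ^ wd S p + 1) :=
    Nat.lt_mul_div_succ _ (by positivity)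
  unfold pos
  rw [h.2.1, h.2.2]
  nlinarith

/-- the graph on all triples -/
def GT (S : ℕ) : SimpleGraph (ℕ × ℕ × ℕ) where
  Adj x y := PC S x y ∨ PC S y x
  symm := ⟨fun _ _ h => h.symm⟩
  loopless := ⟨fun x h => by
    rcases h with h | h
    · have := h.1
      omega
    · have := h.1
      omega⟩

theorem GT_adj {S : ℕ} {x y : ℕ × ℕ × ℕ} : (GT S).Adj x y ↔ PC S x y ∨ PC S y x := Iff.rfl

/-- the number of vertices -/
def nn (S : ℕ) : ℕ := (F S).card

theorem nn_pos (S : ℕ) : 1 ≤ nn S := by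
  have h0 : (0, 0, 0) ∈ F S := by
    rw [mem_F]
    refine ⟨by norm_num, Nat.zero_le _, ?_⟩
    rw [Nat.zero_mul]
    positivity
  exact card_pos.2 ⟨_, h0⟩

/-- the triple of a vertex -/
noncomputable def tr (S : ℕ) (i : Fin (nn S)) : ℕ × ℕ × ℕ := ((F S).equivFin.symm i).1

theorem tr_mem {S : ℕ} (i : Fin (nn S)) : tr S i ∈ F S := ((F S).equivFin.symm i).2

theorem tr_inj {S : ℕ} {i j : Fin (nn S)} (h : tr S i = tr S j) : i = j :=
  (F S).equivFin.symm.injective (Subtype.ext h)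

/-- the forest -/
noncomputable def GG (S : ℕ) : SimpleGraph (Fin (nn S)) := (GT S).comap (tr S)

theorem GG_adj {S : ℕ} {i j : Fin (nn S)} :
    (GG S).Adj i j ↔ PC S (tr S i) (tr S j) ∨ PC S (tr S j) (tr S i) := Iff.rfl

theorem drawing (S : ℕ) :
    ∃ p : Fin (nn S) → ℝ × ℝ, Function.Injective p ∧
      ∃ γ : Fin (nn S) → Fin (nn S) → unitInterval → ℝ × ℝ,
        (∀ u v, (GG S).Adj u v → Continuous (γ u v) ∧ Function.Injective (γ u v) ∧
            γ u v 0 = p u ∧ γ u v 1 = p v) ∧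
        (∀ u v w x, (GG S).Adj u v → γ u v x = p w → (w = u ∧ x = 0) ∨ (w = v ∧ x = 1)) ∧
        (∀ u v u' v' x y, (GG S).Adj u v → (GG S).Adj u' v' → (u, v) ≠ (u', v') →
            γ u v x = γ u' v' y → ∃ w, γ u v x = p w) := by
  have hpc : ∀ u v, (GG S).Adj u v → ((tr S u).1 : ℤ) = (tr S v).1 + 1 →
      PC S (tr S u) (tr S v) := by
    intro u v h hl
    rcases GG_adj.1 h with h | h
    · exact h
    · have := h.1
      omega
  refine draw (GG S) (fun i => ((tr S i).1 : ℤ)) (fun i => (pos S (tr S i) : ℤ)) ?_ ?_ ?_ ?_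
  · intro u v h
    rcases GG_adj.1 h with h | h
    · left; have := h.1; omega
    · right; have := h.1; omega
  · intro u v h1 h2
    apply tr_inj
    have h2' : pos S (tr S u) = pos S (tr S v) := by exact_mod_cast h2
    have h1' : (tr S u).1 = (tr S v).1 := by exact_mod_cast h1
    have p1 : 0 < 2 ^ wd S (tr S u) := by positivity
    have p2 : 0 < 2 ^ wd S (tr S v) := by positivity
    exact eq_of_meet (tr_mem u) (tr_mem v) h1' (pos S (tr S u)) le_rfl (by omega) (by omega)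
      (by omega)
  · intro u v u' h1 h2 h3 h4
    have e1 := hpc u v h1 h3
    have e2 := hpc u' v h2 h4
    apply tr_inj
    have e3 : (tr S u).1 = (tr S u').1 := by rw [e1.1, e2.1]
    have e4 : (tr S u).2.1 = (tr S u').2.1 := by rw [e1.2.1, e2.2.1]
    have hw : wd S (tr S u) = wd S (tr S u') := by unfold wd; rw [e3, e4]
    refine Prod.ext e3 (Prod.ext e4 ?_)
    rw [e1.2.2, e2.2.2, hw]
  · intro u v u' v' h1 h2 h3 h4 h5 h6
    have e1 := hpc u v h1 h3
    have e2 := hpc u' v' h2 h4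
    have h6' : pos S (tr S v) < pos S (tr S v') := by exact_mod_cast h6
    have h5' : (tr S v).1 = (tr S v').1 := by exact_mod_cast h5
    suffices h : pos S (tr S u) ≤ pos S (tr S u') by exact_mod_cast h
    rcases lt_trichotomy (tr S v).2.1 (tr S v').2.1 with h | h | h
    · have h7 : (tr S u).2.1 < (tr S u').2.1 := by rw [e1.2.1, e2.2.1]; exact h
      exact (pos_comp' (tr_mem u) h7).le
    · have hw : wd S (tr S v) = wd S (tr S v') := by unfold wd; rw [h5', h]
      have e3 : (tr S u).1 = (tr S u').1 := by rw [e1.1, e2.1, h5']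
      have e4 : (tr S u).2.1 = (tr S u').2.1 := by rw [e1.2.1, e2.2.1, h]
      have hw' : wd S (tr S u) = wd S (tr S u') := by unfold wd; rw [e3, e4]
      unfold pos at h6' ⊢
      rw [h, hw] at h6'
      rw [e4, hw', e1.2.2, e2.2.2, hw, hw']
      have h8 : (tr S v).2.2 * 2 ^ wd S (tr S v') ≤ (tr S v').2.2 * 2 ^ wd S (tr S v') := by
        omega
      exact Nat.add_le_add_left (Nat.mul_le_mul_right _ (Nat.div_le_div_right h8)) _
    · exact absurd (pos_comp' (tr_mem v') h) (by omega)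

theorem treedec (S : ℕ) (hS : 1 ≤ S) :
    ∃ m : ℕ, ∃ T : SimpleGraph (Fin m), T.IsTree ∧
      ∃ B : Fin m → Finset (Fin (nn S)),
        (∀ v, ∃ i, v ∈ B i) ∧
        (∀ u v, (GG S).Adj u v → ∃ i, u ∈ B i ∧ v ∈ B i) ∧
        (∀ v, (T.induce {i | v ∈ B i}).Connected) ∧
        (∀ i, (B i).card ≤ (S + 1) + 1) := by
  classical
  obtain ⟨M, hM⟩ : ∃ M, (S + 1) * 2 ^ S = M + 1 :=
    ⟨(S + 1) * 2 ^ S - 1, (Nat.sub_add_cancel (Nat.mul_pos (Nat.succ_pos _)
      (Nat.pow_pos (by norm_num)))).symm⟩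
  have hlt : ∀ v : Fin (nn S), pos S (tr S v) + 2 ^ wd S (tr S v) ≤ M + 1 := by
    intro v
    rw [← hM]
    refine (pos_lt (tr_mem v)).trans (Nat.mul_le_mul_right _ ?_)
    have := (mem_F.1 (tr_mem v)).2.1
    omega
  have hp : ∀ v : Fin (nn S), 0 < 2 ^ wd S (tr S v) := fun v => Nat.pow_pos (by norm_num)
  refine ⟨M + 1, SimpleGraph.pathGraph (M + 1), Pool.Agent.H46R3.Exp.path_tree M,
    fun i => univ.filter (fun v => pos S (tr S v) ≤ i.val ∧
      i.val < pos S (tr S v) + 2 ^ wd S (tr S v)), ?_, ?_, ?_, ?_⟩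
  · intro v
    have h1 := hlt v
    have h2 := hp v
    refine ⟨⟨pos S (tr S v), by omega⟩, ?_⟩
    rw [mem_filter]
    exact ⟨mem_univ _, le_rfl, by show pos S (tr S v) < _; omega⟩
  · have main : ∀ u v : Fin (nn S), PC S (tr S u) (tr S v) → ∃ i : Fin (M + 1),
        u ∈ univ.filter (fun v => pos S (tr S v) ≤ i.val ∧
          i.val < pos S (tr S v) + 2 ^ wd S (tr S v)) ∧
        v ∈ univ.filter (fun v => pos S (tr S v) ≤ i.val ∧
          i.val < pos S (tr S v) + 2 ^ wd S (tr S v)) := by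
      intro u v h
      have h1 := hlt v
      have h2 := hp v
      refine ⟨⟨pos S (tr S v), by omega⟩, ?_, ?_⟩
      · rw [mem_filter]
        exact ⟨mem_univ _, h.le, h.lt⟩
      · rw [mem_filter]
        exact ⟨mem_univ _, le_rfl, by show pos S (tr S v) < _; omega⟩
    intro u v h
    rcases GG_adj.1 h with h | h
    · exact main u v h
    · obtain ⟨i, h1, h2⟩ := main v u h
      exact ⟨i, h2, h1⟩
  · intro v
    have h1 := hlt v
    have h2 := hp v
    apply Pool.Agent.H46R3.Exp.interval_connected (M + 1) _ (pos S (tr S v))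
      (pos S (tr S v) + 2 ^ wd S (tr S v) - 1)
    · intro i
      rw [Set.mem_ofPred_eq, mem_filter]
      constructor
      · rintro ⟨_, h3, h4⟩
        exact ⟨h3, by omega⟩
      · rintro ⟨h3, h4⟩
        exact ⟨mem_univ _, h3, by omega⟩
    · omega
    · omega
  · intro i
    have h3 : (univ.filter (fun v => pos S (tr S v) ≤ i.val ∧
      i.val < pos S (tr S v) + 2 ^ wd S (tr S v))).card ≤ (range 3).card := by
      apply card_le_card_of_injOn (fun v => (tr S v).1)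
      · intro v _
        rw [mem_coe, mem_range]
        exact (mem_F.1 (tr_mem v)).1
      · intro v hv w hw h
        rw [mem_coe, mem_filter] at hv hw
        exact tr_inj (eq_of_meet (tr_mem v) (tr_mem w) h i.val hv.2.1 hv.2.2 hw.2.1 hw.2.2)
    rw [card_range] at h3
    exact h3.trans (by omega)

theorem pathpart (S : ℕ) :
    ∃ f : Fin (nn S) → ℕ,
      (∀ u v, (GG S).Adj u v → f u ≤ f v + 1 ∧ f v ≤ f u + 1) ∧
      (∀ i : ℕ, (Finset.univ.filter (fun v => f v = i)).card ≤ 3 * 2 ^ S) := by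
  classical
  refine ⟨fun v => (tr S v).2.1, ?_, ?_⟩
  · intro u v h
    show (tr S u).2.1 ≤ (tr S v).2.1 + 1 ∧ (tr S v).2.1 ≤ (tr S u).2.1 + 1
    rcases GG_adj.1 h with h | h
    · have := h.2.1
      constructor <;> omega
    · have := h.2.1
      constructor <;> omega
  · intro i
    have h3 : (univ.filter (fun v : Fin (nn S) => (tr S v).2.1 = i)).card ≤
        (range 3 ×ˢ range (2 ^ S)).card := by
      apply card_le_card_of_injOn (fun v => ((tr S v).1, (tr S v).2.2))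
      · intro v _
        rw [mem_coe, mem_product, mem_range, mem_range]
        have := mem_F.1 (tr_mem v)
        refine ⟨this.1, ?_⟩
        exact lt_of_le_of_lt (Nat.le_mul_of_pos_right _ (by positivity)) this.2.2
      · intro v hv w hw h
        rw [mem_coe, mem_filter] at hv hw
        apply tr_inj
        have a0 : ((tr S v).1, (tr S v).2.2) = ((tr S w).1, (tr S w).2.2) := h
        rw [Prod.mk.injEq] at a0
        obtain ⟨a1, a2⟩ := a0
        exact Prod.ext a1 (Prod.ext (hv.2.trans hw.2.symm) a2)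
    rw [card_product, card_range, card_range] at h3
    exact h3

/-- no embedding -/
theorem noembG (S c w A : ℕ) (hS : 18 * c ^ 2 * (2 * w + 1) * A ≤ S) (m : ℕ)
    (hm : m ≤ A * 2 ^ S)
    (H : SimpleGraph (Fin m)) (r : ℕ) (T : SimpleGraph (Fin r)) (hT : T.IsTree)
    (B : Fin r → Finset (Fin m)) (hB1 : ∀ v, ∃ i, v ∈ B i)
    (hB2 : ∀ u v, H.Adj u v → ∃ i, u ∈ B i ∧ v ∈ B i)
    (hB3 : ∀ v, (T.induce {i | v ∈ B i}).Connected) (hB4 : ∀ i, (B i).card ≤ w + 1)
    (k : ℕ) (φ : Fin (nn S) → Fin m × Fin k × Fin c) (hφ : Function.Injective φ)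
    (hadj : ∀ u v, (GG S).Adj u v →
          ((φ u).1 = (φ v).1 ∨ H.Adj (φ u).1 (φ v).1) ∧
          ((φ u).2.1 = (φ v).2.1 ∨ (SimpleGraph.pathGraph k).Adj (φ u).2.1 (φ v).2.1)) :
    False := by
  classical
  have hH := deg_sum H w r T hT B hB1 hB2 hB3 hB4
  -- index of a triple
  have hidx : ∀ x : ℕ × ℕ × ℕ, ∃ i : Fin (nn S), x ∈ F S → tr S i = x := by
    have h0 : (0, 0, 0) ∈ F S := by
      rw [mem_F]
      refine ⟨by norm_num, Nat.zero_le _, ?_⟩
      rw [Nat.zero_mul]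
      positivity
    intro x
    by_cases h : x ∈ F S
    · refine ⟨(F S).equivFin ⟨x, h⟩, fun _ => ?_⟩
      unfold tr
      simp
    · exact ⟨(F S).equivFin ⟨_, h0⟩, fun h' => absurd h' h⟩
  choose idx hidx using hidx
  have m2 : ∀ s, s ≤ S → (2, s, 0) ∈ F S := by
    intro s hs
    rw [mem_F]
    refine ⟨by norm_num, hs, ?_⟩
    rw [Nat.zero_mul]
    positivity
  have m1 : ∀ s, s ≤ S → ∀ q, q < 2 ^ s → (1, s, q) ∈ F S := by
    intro s hs q hq
    rw [mem_F]
    refine ⟨by norm_num, hs, ?_⟩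
    have hw : wd S (1, s, q) = S - s := rfl
    have hpow : 2 ^ s * 2 ^ (S - s) = 2 ^ S := by
      rw [← pow_add]; congr 1; omega
    rw [hw, ← hpow]
    exact Nat.mul_lt_mul_of_pos_right hq (by positivity)
  have m0 : ∀ s, s ≤ S → ∀ q, q < 2 ^ S → (0, s, q) ∈ F S := by
    intro s hs q hq
    rw [mem_F]
    refine ⟨by norm_num, hs, ?_⟩
    have hw : wd S (0, s, q) = 0 := rfl
    rw [hw]
    simpa using hq
  have hcount := count (GG S) S c k m (2 * w) (fun s => idx (2, s, 0)) (fun s q => idx (1, s, q))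
    (fun s q => idx (0, s, q)) (by
      intro s hs q hq
      rw [GG_adj, hidx _ (m2 s hs), hidx _ (m1 s hs q hq)]
      left
      refine ⟨rfl, rfl, ?_⟩
      symm
      exact Nat.div_eq_of_lt (mem_F.1 (m1 s hs q hq)).2.2) (by
      intro s hs q hq
      have hq' : q / 2 ^ (S - s) < 2 ^ s := by
        rw [Nat.div_lt_iff_lt_mul (by positivity), ← pow_add]
        have : s + (S - s) = S := by omega
        rw [this]
        exact hq
      rw [GG_adj, hidx _ (m1 s hs _ hq'), hidx _ (m0 s hs q hq)]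
      left
      refine ⟨rfl, rfl, ?_⟩
      have hw : wd S (1, s, q / 2 ^ (S - s)) = S - s := rfl
      have hw' : wd S (0, s, q) = 0 := rfl
      rw [hw, hw']
      simp) (by
      intro s hs q hq q' hq' h
      have h1 : tr S (idx (1, s, q)) = tr S (idx (1, s, q')) := congrArg (tr S) h
      rw [hidx _ (m1 s hs q hq), hidx _ (m1 s hs q' hq')] at h1
      exact congrArg (fun x => x.2.2) h1) (by
      intro s hs q hq q' hq' h
      have h1 : tr S (idx (0, s, q)) = tr S (idx (0, s, q')) := congrArg (tr S) h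
      rw [hidx _ (m0 s hs q hq), hidx _ (m0 s hs q' hq')] at h1
      exact congrArg (fun x => x.2.2) h1)
    H hH φ hφ hadj
  have h1 : (S + 1) * 2 ^ S ≤ S * 2 ^ S := by
    calc (S + 1) * 2 ^ S ≤ 18 * c ^ 2 * ((2 * w + 1) * m) := hcount
      _ ≤ 18 * c ^ 2 * ((2 * w + 1) * (A * 2 ^ S)) :=
        Nat.mul_le_mul_left _ (Nat.mul_le_mul_left _ hm)
      _ = (18 * c ^ 2 * (2 * w + 1) * A) * 2 ^ S := by ring
      _ ≤ S * 2 ^ S := Nat.mul_le_mul_right _ hS
  have h2 : 0 < 2 ^ S := by positivity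
  nlinarith

theorem noemb (S c : ℕ) (hS : 378 * c ^ 2 ≤ S) (m : ℕ) (hm : m ≤ 3 * 2 ^ S)
    (H : SimpleGraph (Fin m)) (r : ℕ) (T : SimpleGraph (Fin r)) (hT : T.IsTree)
    (B : Fin r → Finset (Fin m)) (hB1 : ∀ v, ∃ i, v ∈ B i)
    (hB2 : ∀ u v, H.Adj u v → ∃ i, u ∈ B i ∧ v ∈ B i)
    (hB3 : ∀ v, (T.induce {i | v ∈ B i}).Connected) (hB4 : ∀ i, (B i).card ≤ 3 + 1)
    (k : ℕ) (φ : Fin (nn S) → Fin m × Fin k × Fin c) (hφ : Function.Injective φ)
    (hadj : ∀ u v, (GG S).Adj u v →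
          ((φ u).1 = (φ v).1 ∨ H.Adj (φ u).1 (φ v).1) ∧
          ((φ u).2.1 = (φ v).2.1 ∨ (SimpleGraph.pathGraph k).Adj (φ u).2.1 (φ v).2.1)) :
    False :=
  noembG S c 3 3 (le_trans (le_of_eq (by ring)) hS) m hm H r T hT B hB1 hB2 hB3 hB4 k φ hφ hadj

end Pool.Agent.W606.SF
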